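import Mathlib
import Pool.Agent.X79.TypedUse

/-!
# MP_5efe44: three-colour Ramsey graphs for `(K_k, K_k, K_ℓ)` versus `(K_{k+1}, K_{k-1}, K_ℓ)`

For all `k ≥ ℓ ≥ 2` there is a finite graph `G` with `G ↛ (K_k, K_k, K_ℓ)` and
`G → (K_{k+1}, K_{k-1}, K_ℓ)`.
-/

namespace Pool.Agent.Results.MP_5efe44_co.AllPairs

open Pool.Agent.X79

/-- `G → (K_{a 0}, …, K_{a (r-1)})`: for every colouring of the pairs of vertices (hence of the
edges of `G`) with the colours `0, …, r-1` there are a colour `i` and a set of `a i` vertices any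
two of which are joined by an edge of `G` of colour `i`. -/
def Arrows {V : Type} (G : SimpleGraph V) {r : ℕ} (a : Fin r → ℕ) : Prop :=
  ∀ c : Sym2 V → Fin r, ∃ i : Fin r, ∃ s : Finset V, s.card = a i ∧
    ∀ x ∈ s, ∀ y ∈ s, x ≠ y → G.Adj x y ∧ c s(x, y) = i

/-- The union of the graphs `Γ t`. -/
def uni {X : Type} {q : ℕ} (Γ : Fin q → SimpleGraph X) : SimpleGraph X where
  Adj x y := ∃ t, (Γ t).Adj x y
  symm := ⟨fun _ _ ⟨t, h⟩ => ⟨t, h.symm⟩⟩
  loopless := ⟨fun _ ⟨_, h⟩ => h.ne rfl⟩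

theorem result (k ℓ : ℕ) (hℓ : 2 ≤ ℓ) (hk : ℓ ≤ k) :
    ∃ (V : Type) (_ : Finite V) (G : SimpleGraph V),
      ¬ Arrows G ![k, k, ℓ] ∧ Arrows G ![k + 1, k - 1, ℓ] := by
  classical
  by_cases hk3 : k = 2
  · have hl2 : ℓ = 2 := by omega
    subst hk3 hl2
    refine ⟨Fin 1, inferInstance, ⊥, ?_, ?_⟩
    · intro hA
      obtain ⟨i, s, hs, -⟩ := hA (fun _ => 0)
      have h1 : s.card ≤ 1 := by
        have := Finset.card_le_univ s
        simpa using this
      have h2 : ∀ i : Fin 3, (![2, 2, 2] : Fin 3 → ℕ) i = 2 := by decide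
      rw [h2 i] at hs
      omega
    · intro c
      refine ⟨1, {0}, by simp, ?_⟩
      intro x _ y _ hxy
      exact absurd (Subsingleton.elim x y) hxy
  by_cases hkl : ℓ < k
  · -- two types suffice
    obtain ⟨X, hX, Γ, hcf, hdisj, h⟩ := TU.main (Fin 2) (Fin 3) k (by omega)
    have h01 : (0 : Fin 2) ≠ 1 := by decide
    refine ⟨X, hX, uni Γ, ?_, ?_⟩
    · intro hA
      have hdec : ∀ z : Sym2 X, ∃ c : Fin 3, c ≠ 2 ∧ (z ∈ (Γ 0).edgeSet → c = 0) ∧
          (z ∈ (Γ 1).edgeSet → c = 1) := by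
        intro z
        induction z using Sym2.ind with
        | _ x y =>
          by_cases hz : (Γ 0).Adj x y
          · refine ⟨0, by decide, fun _ => rfl, fun h1 => ?_⟩
            exact absurd (hdisj _ _ _ _ hz h1) h01
          · exact ⟨1, by decide, fun h0 => absurd h0 hz, fun _ => rfl⟩
      choose c hc2 hc0 hc1 using hdec
      obtain ⟨i, s, hs, hcl⟩ := hA c
      have hi : i = 0 ∨ i = 1 ∨ i = 2 := by fin_cases i <;> simp
      have key : ∀ x ∈ s, ∀ y ∈ s, x ≠ y → i ≠ 2 ∧ (i = 0 → (Γ 0).Adj x y) ∧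
          (i = 1 → (Γ 1).Adj x y) := by
        intro x hx y hy hxy
        obtain ⟨⟨t, h1⟩, h2⟩ := hcl x hx y hy hxy
        refine ⟨by rw [← h2]; exact hc2 _, fun hi => ?_, fun hi => ?_⟩
        · have : t = 0 ∨ t = 1 := by omega
          rcases this with rfl | rfl
          · exact h1
          · have := hc1 _ ((Γ 1).mem_edgeSet.2 h1)
            rw [h2, hi] at this
            exact absurd this (by decide)
        · have : t = 0 ∨ t = 1 := by omega
          rcases this with rfl | rfl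
          · have := hc0 _ ((Γ 0).mem_edgeSet.2 h1)
            rw [h2, hi] at this
            exact absurd this (by decide)
          · exact h1
      rcases hi with rfl | rfl | rfl
      · exact hcf 0 s ⟨fun x hx y hy hxy => (key x hx y hy hxy).2.1 rfl, by simpa using hs⟩
      · exact hcf 1 s ⟨fun x hx y hy hxy => (key x hx y hy hxy).2.2 rfl, by simpa using hs⟩
      · have hs' : s.card = ℓ := by simpa using hs
        have hne : s.Nonempty := by rw [← Finset.card_pos]; omega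
        obtain ⟨x, hx⟩ := hne
        obtain ⟨y, hy, hxy⟩ := Finset.exists_mem_ne (s := s) (by omega) x
        exact (key x hx y hy hxy.symm).1 rfl
    · intro c
      obtain ⟨φ, h1, h2⟩ := h (fun x y => c s(x, y)) (fun x y => by rw [Sym2.eq_swap])
      have hmono : ∀ t : Fin 2, φ t ≠ 0 → ∃ i : Fin 3, ∃ s : Finset X,
          s.card = ![k + 1, k - 1, ℓ] i ∧
          ∀ x ∈ s, ∀ y ∈ s, x ≠ y → (uni Γ).Adj x y ∧ c s(x, y) = i := by
        intro t ht
        obtain ⟨t', ht'⟩ : ∃ t' : Fin 2, t ≠ t' := by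
          by_cases h0 : t = 0
          · exact ⟨1, by rw [h0]; exact h01⟩
          · exact ⟨0, h0⟩
        obtain ⟨s, hs, hcl⟩ := h1 t t' ht'
        have : φ t = 1 ∨ φ t = 2 := by omega
        rcases this with h | h
        · refine ⟨1, s, by rw [hs]; rfl, fun x hx y hy hxy => ?_⟩
          obtain ⟨g1, g2⟩ := hcl x hx y hy hxy
          exact ⟨⟨t, g1⟩, g2.trans h⟩
        · obtain ⟨s', hs', hcard⟩ := Finset.exists_subset_card_eq (s := s) (n := ℓ) (by omega)
          refine ⟨2, s', by rw [hcard]; rfl, fun x hx y hy hxy => ?_⟩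
          obtain ⟨g1, g2⟩ := hcl x (hs' hx) y (hs' hy) hxy
          exact ⟨⟨t, g1⟩, g2.trans h⟩
      by_cases g0 : φ 0 = 0
      · by_cases g1 : φ 1 = 0
        · obtain ⟨s, hs, hcl⟩ := h2 0 1 h01
          refine ⟨0, s, by rw [hs]; rfl, fun x hx y hy hxy => ?_⟩
          rcases hcl x hx y hy hxy with ⟨e1, e2⟩ | ⟨e1, e2⟩
          · exact ⟨⟨0, e1⟩, e2.trans g0⟩
          · exact ⟨⟨1, e1⟩, e2.trans g1⟩
        · exact hmono 1 g1
      · exact hmono 0 g0
  · -- three types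
    have hkl' : ℓ = k := by omega
    subst hkl'
    obtain ⟨X, hX, Γ, hcf, hdisj, h⟩ := TU.main (Fin 3) (Fin 3) ℓ (by omega)
    have hcard : ∀ i : Fin 3, (![ℓ, ℓ, ℓ] : Fin 3 → ℕ) i = ℓ := by
      intro i
      fin_cases i <;> rfl
    refine ⟨X, hX, uni Γ, ?_, ?_⟩
    · intro hA
      have hdec : ∀ z : Sym2 X, ∃ c : Fin 3, ∀ t, z ∈ (Γ t).edgeSet → c = t := by
        intro z
        induction z using Sym2.ind with
        | _ x y =>
          by_cases hz : ∃ t, (Γ t).Adj x y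
          · obtain ⟨t, ht⟩ := hz
            exact ⟨t, fun t' ht' => hdisj _ _ _ _ ht ht'⟩
          · exact ⟨0, fun t ht => absurd ⟨t, ht⟩ hz⟩
      choose c hc using hdec
      obtain ⟨i, s, hs, hcl⟩ := hA c
      rw [hcard i] at hs
      apply hcf i s
      refine ⟨fun x hx y hy hxy => ?_, hs⟩
      obtain ⟨⟨t, h1⟩, h2⟩ := hcl x hx y hy hxy
      have := hc _ t ((Γ t).mem_edgeSet.2 h1)
      rw [h2] at this
      rw [this]
      exact h1
    · intro c
      obtain ⟨φ, h1, h2⟩ := h (fun x y => c s(x, y)) (fun x y => by rw [Sym2.eq_swap])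
      have hone : ∀ t : Fin 3, φ t = 1 → ∃ i : Fin 3, ∃ s : Finset X,
          s.card = ![ℓ + 1, ℓ - 1, ℓ] i ∧
          ∀ x ∈ s, ∀ y ∈ s, x ≠ y → (uni Γ).Adj x y ∧ c s(x, y) = i := by
        intro t ht
        obtain ⟨t', ht'⟩ : ∃ t' : Fin 3, t ≠ t' := by
          by_cases h0 : t = 0
          · exact ⟨1, by rw [h0]; decide⟩
          · exact ⟨0, h0⟩
        obtain ⟨s, hs, hcl⟩ := h1 t t' ht'
        refine ⟨1, s, by rw [hs]; rfl, fun x hx y hy hxy => ?_⟩
        obtain ⟨g1, g2⟩ := hcl x hx y hy hxy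
        exact ⟨⟨t, g1⟩, g2.trans ht⟩
      have htwo : ∀ t t' : Fin 3, t ≠ t' → φ t = φ t' → φ t ≠ 1 → ∃ i : Fin 3,
          ∃ s : Finset X, s.card = ![ℓ + 1, ℓ - 1, ℓ] i ∧
          ∀ x ∈ s, ∀ y ∈ s, x ≠ y → (uni Γ).Adj x y ∧ c s(x, y) = i := by
        intro t t' htt hφ hne
        obtain ⟨s, hs, hcl⟩ := h2 t t' htt
        have : φ t = 0 ∨ φ t = 2 := by omega
        rcases this with h0 | h0
        · refine ⟨0, s, by rw [hs]; rfl, fun x hx y hy hxy => ?_⟩
          rcases hcl x hx y hy hxy with ⟨e1, e2⟩ | ⟨e1, e2⟩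
          · exact ⟨⟨_, e1⟩, e2.trans h0⟩
          · exact ⟨⟨_, e1⟩, e2.trans (hφ.symm.trans h0)⟩
        · obtain ⟨s', hs', hcard'⟩ := Finset.exists_subset_card_eq (s := s) (n := ℓ) (by omega)
          refine ⟨2, s', by rw [hcard']; rfl, fun x hx y hy hxy => ?_⟩
          rcases hcl x (hs' hx) y (hs' hy) hxy with ⟨e1, e2⟩ | ⟨e1, e2⟩
          · exact ⟨⟨_, e1⟩, e2.trans h0⟩
          · exact ⟨⟨_, e1⟩, e2.trans (hφ.symm.trans h0)⟩
      by_cases a0 : φ 0 = 1
      · exact hone 0 a0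
      by_cases a1 : φ 1 = 1
      · exact hone 1 a1
      by_cases a2 : φ 2 = 1
      · exact hone 2 a2
      by_cases b01 : φ 0 = φ 1
      · exact htwo 0 1 (by decide) b01 a0
      by_cases b02 : φ 0 = φ 2
      · exact htwo 0 2 (by decide) b02 a0
      have b12 : φ 1 = φ 2 := by omega
      exact htwo 1 2 (by decide) b12 a1

end Pool.Agent.Results.MP_5efe44_co.AllPairs
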